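import Pool.Agent.helper85.PG.Spec2
import Pool.Agent.helper85.PG.Basic

set_option autoImplicit false

namespace Pool.Agent.helper85.PG

open Module Pointwise

theorem RSZ_card (hPKC : PKC_stmt) {p : ℕ} [Fact p.Prime] {d : ℕ} {P : ℝ → Finset (ZMod p)}
    (h : IsSys p d P) {l m : ℝ} (hl : 0 ≤ l) (hm : 0 < m) :
    ((P l).card : ℝ) ≤ (1 + 2 * l / m) ^ d * ((P m).card : ℝ) := by
  obtain ⟨E, _, _, G, hfd, hd, hFB, hP⟩ := h
  have h1 := hPKC.2.1 p E G ⊤ l m hl hm (fun z _ => Submodule.mem_top)
  rw [hP, hP]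
  refine h1.trans ?_
  refine mul_le_mul_of_nonneg_right ?_ (Nat.cast_nonneg _)
  rw [finrank_top]
  refine pow_le_pow_right₀ ?_ hd
  have : 0 ≤ 2 * l / m := by positivity
  linarith

theorem RSZ (hPKC : PKC_stmt) (hINT : INT_stmt) : RSZ_stmt := by
  intro d
  refine ⟨225 ^ d, one_le_pow₀ (by norm_num), ?_⟩
  intro p _ P Q hP hQ
  classical
  constructor
  · -- first inequality
    have hcard : ((P 6 + Q 6) ×ˢ (P 1 ∩ Q 1)).card ≤ (P 7 ×ˢ Q 7).card := by
      have hch : ∀ r ∈ P 6 + Q 6, ∃ x ∈ P 6, ∃ y ∈ Q 6, x + y = r := fun r hr =>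
        Finset.mem_add.1 hr
      choose! x hx y hy hxy using hch
      refine Finset.card_le_card_of_injOn (fun q => (x q.1 + q.2, y q.1 - q.2)) ?_ ?_
      · rintro ⟨r, z⟩ hq
        have hq' := Finset.mem_product.1 (Finset.mem_coe.1 hq)
        obtain ⟨hr, hz⟩ := hq'
        have hz' := Finset.mem_inter.1 hz
        refine Finset.mem_coe.2 (Finset.mem_product.2 ⟨?_, ?_⟩)
        · have := hP.add_mem (hx r hr) hz'.1
          have e : (6 : ℝ) + 1 = 7 := by norm_num
          rw [e] at this
          exact this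
        · have := hQ.sub_mem (hy r hr) hz'.2
          have e : (6 : ℝ) + 1 = 7 := by norm_num
          rw [e] at this
          exact this
      · rintro ⟨r, z⟩ hq ⟨r', z'⟩ hq' he
        obtain ⟨hr, hz⟩ := Finset.mem_product.1 (Finset.mem_coe.1 hq)
        obtain ⟨hr', hz'⟩ := Finset.mem_product.1 (Finset.mem_coe.1 hq')
        have h1 : x r + z = x r' + z' := (Prod.mk.inj he).1
        have h2 : y r - z = y r' - z' := (Prod.mk.inj he).2
        have h3 : r = r' := by
          rw [← hxy r hr, ← hxy r' hr']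
          calc x r + y r = (x r + z) + (y r - z) := by ring
            _ = (x r' + z') + (y r' - z') := by rw [h1, h2]
            _ = x r' + y r' := by ring
        subst h3
        have h4 : z = z' := by simpa using h1
        rw [h4]
    rw [Finset.card_product, Finset.card_product] at hcard
    have hc : ((P 6 + Q 6).card : ℝ) * ((P 1 ∩ Q 1).card : ℝ) ≤
        ((P 7).card : ℝ) * ((Q 7).card : ℝ) := by exact_mod_cast hcard
    have hP7 := RSZ_card hPKC hP (l := 7) (m := 1) (by norm_num) one_pos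
    have hQ7 := RSZ_card hPKC hQ (l := 7) (m := 1) (by norm_num) one_pos
    have e15 : (1 + 2 * 7 / 1 : ℝ) = 15 := by norm_num
    rw [e15] at hP7 hQ7
    have e225 : (225 : ℝ) ^ d = 15 ^ d * 15 ^ d := by rw [← mul_pow]; norm_num
    calc ((P 6 + Q 6).card : ℝ) * ((P 1 ∩ Q 1).card : ℝ)
        ≤ ((P 7).card : ℝ) * ((Q 7).card : ℝ) := hc
      _ ≤ (15 ^ d * ((P 1).card : ℝ)) * (15 ^ d * ((Q 1).card : ℝ)) :=
        mul_le_mul hP7 hQ7 (Nat.cast_nonneg _) (by positivity)
      _ = 225 ^ d * (((P 1).card : ℝ) * ((Q 1).card : ℝ)) := by rw [e225]; ring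
  · -- second inequality
    have hcard : (P 1 ×ˢ Q 1).card ≤ (P 2 ∩ Q 2).card * (P 1 + Q 1).card := by
      refine Finset.card_le_mul_card_image_of_maps_to (f := fun q : ZMod p × ZMod p => q.1 + q.2)
        ?_ _ ?_
      · rintro ⟨a, b⟩ hq
        obtain ⟨ha, hb⟩ := Finset.mem_product.1 hq
        exact Finset.add_mem_add ha hb
      · intro v _
        by_cases hne : ((P 1 ×ˢ Q 1).filter fun q : ZMod p × ZMod p => q.1 + q.2 = v).Nonempty
        · obtain ⟨⟨a₀, b₀⟩, h0⟩ := hne
          obtain ⟨h01, h02⟩ := Finset.mem_filter.1 h0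
          obtain ⟨ha₀, hb₀⟩ := Finset.mem_product.1 h01
          refine Finset.card_le_card_of_injOn (fun q => q.1 - a₀) ?_ ?_
          · rintro ⟨a, b⟩ hq
            obtain ⟨hq1, hq2⟩ := Finset.mem_filter.1 (Finset.mem_coe.1 hq)
            obtain ⟨ha, hb⟩ := Finset.mem_product.1 hq1
            refine Finset.mem_coe.2 (Finset.mem_inter.2 ⟨?_, ?_⟩)
            · have := hP.sub_mem ha ha₀
              have e : (1 : ℝ) + 1 = 2 := by norm_num
              rw [e] at this
              exact this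
            · have := hQ.sub_mem hb₀ hb
              have e : (1 : ℝ) + 1 = 2 := by norm_num
              rw [e] at this
              have e2 : a - a₀ = b₀ - b := by
                have h3 : a + b = a₀ + b₀ := by
                  simp only at hq2 h02
                  rw [hq2, h02]
                linear_combination h3
              simp only
              rw [e2]
              exact this
          · rintro ⟨a, b⟩ hq ⟨a', b'⟩ hq' he
            obtain ⟨-, hq2⟩ := Finset.mem_filter.1 (Finset.mem_coe.1 hq)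
            obtain ⟨-, hq2'⟩ := Finset.mem_filter.1 (Finset.mem_coe.1 hq')
            simp only at he hq2 hq2'
            have h1 : a = a' := by simpa using he
            subst h1
            have h2 : b = b' := by
              have : a + b = a + b' := by rw [hq2, hq2']
              simpa using this
            rw [h2]
        · rw [Finset.not_nonempty_iff_eq_empty] at hne
          rw [hne]
          exact Nat.zero_le _
    rw [Finset.card_product] at hcard
    have hc : ((P 1).card : ℝ) * ((Q 1).card : ℝ) ≤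
        ((P 2 ∩ Q 2).card : ℝ) * ((P 1 + Q 1).card : ℝ) := by exact_mod_cast hcard
    have hZ := RSZ_card hPKC (hINT p d d P Q hP hQ).1 (l := 2) (m := 1) (by norm_num) one_pos
    have e5 : (1 + 2 * 2 / 1 : ℝ) = 5 := by norm_num
    rw [e5] at hZ
    have e25 : (5 : ℝ) ^ (d + d) = 25 ^ d := by rw [pow_add, ← mul_pow]; norm_num
    rw [e25] at hZ
    have h225 : (25 : ℝ) ^ d ≤ 225 ^ d := pow_le_pow_left₀ (by norm_num) (by norm_num) d
    have hZ' : ((P 2 ∩ Q 2).card : ℝ) ≤ 225 ^ d * ((P 1 ∩ Q 1).card : ℝ) :=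
      hZ.trans (mul_le_mul_of_nonneg_right h225 (Nat.cast_nonneg _))
    calc ((P 1).card : ℝ) * ((Q 1).card : ℝ)
        ≤ ((P 2 ∩ Q 2).card : ℝ) * ((P 1 + Q 1).card : ℝ) := hc
      _ ≤ (225 ^ d * ((P 1 ∩ Q 1).card : ℝ)) * ((P 1 + Q 1).card : ℝ) :=
        mul_le_mul_of_nonneg_right hZ' (Nat.cast_nonneg _)
      _ = 225 ^ d * (((P 1 + Q 1).card : ℝ) * ((P 1 ∩ Q 1).card : ℝ)) := by ring

end Pool.Agent.helper85.PG
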