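import Pool.Agent.helper85.PG.Spec5
import Pool.Agent.helper85.PG.Basic

set_option autoImplicit false

namespace Pool.Agent.helper85.PG

open Module Pointwise

theorem SHG_card (hPKC : PKC_stmt) {p : ℕ} [Fact p.Prime] {d : ℕ} {P : ℝ → Finset (ZMod p)}
    (h : IsSys p d P) {l m : ℝ} (hl : 0 ≤ l) (hm : 0 < m) :
    ((P l).card : ℝ) ≤ (1 + 2 * l / m) ^ d * ((P m).card : ℝ) := by
  obtain ⟨E, _, _, G, hfd, hd, hFB, hP⟩ := h
  have h1 := hPKC.2.1 p E G ⊤ l m hl hm (fun z _ => Submodule.mem_top)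
  rw [hP, hP]
  refine h1.trans ?_
  refine mul_le_mul_of_nonneg_right ?_ (Nat.cast_nonneg _)
  rw [finrank_top]
  refine pow_le_pow_right₀ ?_ hd
  have : 0 ≤ 2 * l / m := by positivity
  linarith

/-- `P 0` is trivial or everything -/
theorem SHG_zero {p : ℕ} [Fact p.Prime] {d : ℕ} {P : ℝ → Finset (ZMod p)}
    (h : IsSys p d P) (h0 : P 0 ≠ Finset.univ) : (P 0).card = 1 := by
  let S : AddSubgroup (ZMod p) :=
    { carrier := {y | y ∈ P 0}
      add_mem' := fun {a b} ha hb => by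
        have := h.add_mem ha hb
        rwa [add_zero] at this
      zero_mem' := h.zero_mem le_rfl
      neg_mem' := fun {a} ha => h.neg_mem ha }
  have hS : ∀ y, y ∈ S ↔ y ∈ P 0 := fun y => Iff.rfl
  have hbt : S = ⊥ ∨ S = ⊤ := by
    have hp : (Nat.card (ZMod p)).Prime := by
      rw [Nat.card_zmod]
      exact Fact.out
    have : Fact (Nat.card (ZMod p)).Prime := ⟨hp⟩
    exact AddSubgroup.eq_bot_or_eq_top_of_prime_card S
  rcases hbt with hb | ht
  · have h1 : P 0 = {0} := by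
      ext y
      rw [← hS y, hb, AddSubgroup.mem_bot, Finset.mem_singleton]
    rw [h1, Finset.card_singleton]
  · exfalso
    apply h0
    ext y
    rw [← hS y, ht]
    simp

/-- for small radii the system is constant -/
theorem SHG_small {p : ℕ} [Fact p.Prime] {d : ℕ} {P : ℝ → Finset (ZMod p)}
    (h : IsSys p d P) : ∃ δ : ℝ, 0 < δ ∧ ∀ l : ℝ, l < δ → P l ⊆ P 0 := by
  obtain ⟨E, _, _, G, hfd, hd, hFB, hP⟩ := h
  have hfin := hFB 1
  classical
  -- the finite set of positive norms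
  set T : Finset (E × ZMod p) := hfin.toFinset.filter fun z => z.1 ≠ 0 with hT
  have hTm : ∀ z, z ∈ T ↔ (z ∈ ball G 1 ∧ z.1 ≠ 0) := fun z => by
    rw [hT, Finset.mem_filter, Set.Finite.mem_toFinset]
  obtain ⟨δ, hδ, hδ1, hδT⟩ : ∃ δ : ℝ, 0 < δ ∧ δ ≤ 1 ∧ ∀ z ∈ T, δ ≤ ‖z.1‖ := by
    by_cases hne : T.Nonempty
    · obtain ⟨z₀, hz₀, hmin⟩ := Finset.exists_min_image T (fun z => ‖z.1‖) hne
      have hpos : 0 < ‖z₀.1‖ := norm_pos_iff.2 ((hTm z₀).1 hz₀).2
      exact ⟨min ‖z₀.1‖ 1, lt_min hpos one_pos, min_le_right _ _,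
        fun z hz => (min_le_left _ _).trans (hmin z hz)⟩
    · rw [Finset.not_nonempty_iff_eq_empty] at hne
      refine ⟨1, one_pos, le_rfl, fun z hz => ?_⟩
      rw [hne] at hz
      exact absurd hz (Finset.notMem_empty z)
  refine ⟨δ, hδ, fun l hl y hy => ?_⟩
  rw [hP] at hy ⊢
  obtain ⟨x, hx, hxl⟩ := (mem_PP G l y).1 hy
  refine (mem_PP G 0 y).2 ⟨x, hx, ?_⟩
  by_contra hcon
  have hx0 : x ≠ 0 := by
    intro h0
    apply hcon
    rw [h0, norm_zero]
  have h1 : (x, y) ∈ T := (hTm _).2 ⟨⟨hx, hxl.trans (hl.le.trans hδ1)⟩, hx0⟩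
  have h2 := hδT _ h1
  simp only at h2
  linarith

theorem SHG (hPKC : PKC_stmt) (hCVR : CVR_stmt) : SHG_stmt := by
  intro p _ d P hP hP0 V hV
  classical
  by_cases hle : ((P 1).card : ℝ) ≤ V
  · refine ⟨P, {0}, hP, hle, Or.inl le_rfl, ?_, ?_⟩
    · rw [Finset.card_singleton, Nat.cast_one, one_mul]
      have h1 : (1 : ℝ) ≤ 25 ^ d := one_le_pow₀ (by norm_num)
      exact le_mul_of_one_le_left (Nat.cast_nonneg _) h1
    · intro a ha
      exact ⟨0, Finset.mem_singleton_self 0, by rwa [sub_zero]⟩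
  · rw [not_le] at hle
    obtain ⟨δ, hδ, hsm⟩ := SHG_small hP
    have hex : ∃ j : ℕ, ((P ((1 / 2 : ℝ) ^ j)).card : ℝ) ≤ V := by
      obtain ⟨j, hj⟩ := exists_pow_lt_of_lt_one hδ (by norm_num : (1 / 2 : ℝ) < 1)
      refine ⟨j, ?_⟩
      have h1 := Finset.card_le_card (hsm _ hj)
      rw [SHG_zero hP hP0] at h1
      have h2 : ((P ((1 / 2 : ℝ) ^ j)).card : ℝ) ≤ 1 := by exact_mod_cast h1
      linarith
    obtain ⟨j, hj, hjmin⟩ : ∃ j : ℕ, ((P ((1 / 2 : ℝ) ^ j)).card : ℝ) ≤ V ∧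
        ∀ i < j, V < ((P ((1 / 2 : ℝ) ^ i)).card : ℝ) :=
      ⟨Nat.find hex, Nat.find_spec hex, fun i hi => not_le.1 (Nat.find_min hex hi)⟩
    have hj0 : j ≠ 0 := by
      rintro rfl
      rw [pow_zero] at hj
      linarith
    obtain ⟨i, rfl⟩ := Nat.exists_eq_succ_of_ne_zero hj0
    have hVi := hjmin i (Nat.lt_succ_self i)
    set l : ℝ := (1 / 2 : ℝ) ^ (i + 1) with hl
    have hl0 : 0 < l := by positivity
    have h2l : (1 / 2 : ℝ) ^ i = 2 * l := by rw [hl, pow_succ]; ring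
    rw [h2l] at hVi
    have hl1 : l ≤ 1 / 2 := by
      rw [hl, pow_succ]
      have : (1 / 2 : ℝ) ^ i ≤ 1 := pow_le_one₀ (by norm_num) (by norm_num)
      linarith
    have hsys := hP.scale hl0
    have hk1 := SHG_card hPKC hP (l := 2 * l) (m := l) (by positivity) hl0
    have e5 : (1 + 2 * (2 * l) / l : ℝ) = 5 := by field_simp; norm_num
    rw [e5] at hk1
    have hk2 := SHG_card hPKC hP (l := 2) (m := 1) (by norm_num) one_pos
    have e5' : (1 + 2 * 2 / 1 : ℝ) = 5 := by norm_num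
    rw [e5'] at hk2
    have hk3 := SHG_card hPKC hP (l := l) (m := l / 2) hl0.le (by positivity)
    have e5'' : (1 + 2 * l / (l / 2) : ℝ) = 5 := by field_simp; norm_num
    rw [e5''] at hk3
    obtain ⟨X, hX1, -, hX3, hX4⟩ := hCVR p (P 1) (P (l / 2)) ⟨0, hP.zero_mem (by positivity)⟩
    have hsub : P 1 + P (l / 2) ⊆ P 2 := by
      intro y hy
      obtain ⟨a, ha, b, hb, rfl⟩ := Finset.mem_add.1 hy
      exact hP.mono (by linarith) (hP.add_mem ha hb)
    have hcard : ((X.card : ℝ)) * ((P (l / 2)).card : ℝ) ≤ ((P 2).card : ℝ) := by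
      have h1 : X.card * (P (l / 2)).card ≤ (P 2).card := hX4.trans (Finset.card_le_card hsub)
      exact_mod_cast h1
    refine ⟨fun R => P (l * R), X, hsys, ?_, ?_, ?_, ?_⟩
    · simp only [mul_one]
      exact hj
    · right
      simp only [mul_one]
      exact (hVi.le).trans hk1
    · simp only [mul_one]
      have e25 : (25 : ℝ) ^ d = 5 ^ d * 5 ^ d := by rw [← mul_pow]; norm_num
      calc (X.card : ℝ) * ((P l).card : ℝ) ≤ (X.card : ℝ) * (5 ^ d * ((P (l / 2)).card : ℝ)) :=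
            mul_le_mul_of_nonneg_left hk3 (Nat.cast_nonneg _)
        _ = 5 ^ d * ((X.card : ℝ) * ((P (l / 2)).card : ℝ)) := by ring
        _ ≤ 5 ^ d * ((P 2).card : ℝ) := mul_le_mul_of_nonneg_left hcard (by positivity)
        _ ≤ 5 ^ d * (5 ^ d * ((P 1).card : ℝ)) := mul_le_mul_of_nonneg_left hk2 (by positivity)
        _ = 25 ^ d * ((P 1).card : ℝ) := by rw [e25]; ring
    · intro a ha
      obtain ⟨x, hx, v, hv, v', hv', he⟩ := hX3 a ha
      refine ⟨x, hx, ?_⟩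
      simp only [mul_one]
      have h1 : a - x = v' - v := by linear_combination he
      rw [h1]
      have h2 := hP.sub_mem hv' hv
      have e : l / 2 + l / 2 = l := by ring
      rw [e] at h2
      exact h2

end Pool.Agent.helper85.PG
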